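import Mathlib

/-!
Every M-number is strongly matchable.

For the divisors `e` of `n` and the terms `t` of the progression consider the matrix
`F(e, t) = ∏_{p ∣ e} (1 - z_p ^ (v_p(e) t))` with `z_p` a primitive `p`-th root of unity: its entries
vanish unless `gcd(e, t) = 1`. Expanding products, the rows span the same space as the
rows `∏_p z_p ^ (v_p(e) t)` of a Vandermonde matrix with distinct nodes (here `v_p(e) < p` is used),
so the matrix is nonsingular, and a nonzero term of its determinant is a coprime matching.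
-/

set_option autoImplicit false
open Finset

namespace Pool.Agent.Results.MP_0a29ca_nt.EveryMNumber

/-- The positive integer `n` is strongly matchable: for every coprime arithmetic progression
`a, a + d, ..., a + (τ(n) - 1) d` there is a bijection from the divisors of `n` onto it which sends
every divisor to a number coprime to it. -/
def StronglyMatchable (n : ℕ) : Prop :=
  ∀ a d : ℕ, 1 ≤ a → 1 ≤ d → Nat.Coprime a d →
    ∃ ψ : ℕ → ℕ, Set.BijOn ψ {e | e ∣ n} {t | ∃ i < n.divisors.card, t = a + i * d} ∧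
      ∀ e, e ∣ n → Nat.Coprime e (ψ e)

section

variable (n a d : ℕ)

/-- product of the primes dividing `n` -/
def R : ℕ := ∏ p ∈ n.primeFactors, p

def al (p : ℕ) : ℕ := if p ∣ d then 0 else a
def be (p : ℕ) : ℕ := if p ∣ d then 1 else d

theorem be_coprime {p : ℕ} (hp : p.Prime) : ¬ p ∣ be d p := by
  unfold be
  split_ifs with h
  · exact fun h1 => hp.one_lt.ne' (Nat.dvd_one.mp h1)
  · exact h

theorem R_pos : 0 < R n := Finset.prod_pos fun _ hp => (Nat.prime_of_mem_primeFactors hp).pos

theorem dvd_R {p : ℕ} (hp : p ∈ n.primeFactors) : p ∣ R n := Finset.dvd_prod_of_mem _ hp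

theorem R_div {p : ℕ} (hp : p ∈ n.primeFactors) : R n / p = ∏ q ∈ n.primeFactors.erase p, q := by
  have h0 : 0 < p := (Nat.prime_of_mem_primeFactors hp).pos
  rw [R, ← Finset.mul_prod_erase _ _ hp, Nat.mul_div_cancel_left _ h0]

theorem R_div_coprime {p : ℕ} (hp : p ∈ n.primeFactors) : ¬ p ∣ R n / p := by
  have hp' := Nat.prime_of_mem_primeFactors hp
  rw [R_div n hp, Prime.dvd_finsetProd_iff hp'.prime]
  rintro ⟨q, hq, hpq⟩
  rw [Finset.mem_erase] at hq
  exact hq.1 ((Nat.prime_dvd_prime_iff_eq hp' (Nat.prime_of_mem_primeFactors hq.2)).mp hpq).symm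

theorem dvd_R_div {p q : ℕ} (hp : p ∈ n.primeFactors) (hq : q ∈ n.primeFactors) (hne : p ≠ q) :
    p ∣ R n / q := by
  rw [R_div n hq]
  exact Finset.dvd_prod_of_mem _ (Finset.mem_erase.mpr ⟨hne, hp⟩)

/-- a primitive root of unity of order `R n` -/
noncomputable def ζ : ℂ := Complex.exp (2 * Real.pi * Complex.I / (R n : ℕ))

theorem ζ_prim : IsPrimitiveRoot (ζ n) (R n) := Complex.isPrimitiveRoot_exp _ (R_pos n).ne'

/-- `z_p ^ (j (α + i β))` -/
noncomputable def z (p j i : ℕ) : ℂ := ζ n ^ (R n / p * (j * (al a d p + i * be d p)))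

theorem z_zero (p i : ℕ) : z n a d p 0 i = 1 := by simp [z]

theorem z_eq_one {p : ℕ} (hp : p ∈ n.primeFactors) (hc : Nat.Coprime a d) (j i : ℕ)
    (h : p ∣ a + i * d) : z n a d p j i = 1 := by
  have hpp := Nat.prime_of_mem_primeFactors hp
  have hpd : ¬ p ∣ d := by
    intro hd
    have : p ∣ a := (Nat.dvd_add_left (hd.mul_left i)).mp h
    exact hpp.one_lt.ne' (Nat.dvd_one.mp (hc ▸ Nat.dvd_gcd this hd))
  have h1 : al a d p + i * be d p = a + i * d := by simp [al, be, hpd]
  rw [z, h1]
  obtain ⟨k, hk⟩ := h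
  have h2 : R n / p * (j * (a + i * d)) = R n * (j * k) := by
    rw [hk]
    calc R n / p * (j * (p * k)) = (R n / p * p) * (j * k) := by ring
      _ = R n * (j * k) := by rw [Nat.div_mul_cancel (dvd_R n hp)]
  rw [h2, pow_mul, (ζ_prim n).pow_eq_one, one_pow]

/-- the matrix entries -/
noncomputable def F (e i : ℕ) : ℂ := ∏ p ∈ e.primeFactors, (1 - z n a d p (e.factorization p) i)
noncomputable def V (e i : ℕ) : ℂ := ∏ p ∈ n.primeFactors, z n a d p (e.factorization p) i

theorem F_ne_zero (hc : Nat.Coprime a d) (hn : n ≠ 0) {e : ℕ} (he : e ∣ n) {i : ℕ}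
    (h : F n a d e i ≠ 0) : Nat.Coprime e (a + i * d) := by
  by_contra hcon
  obtain ⟨p, hp, h1, h2⟩ := Nat.Prime.not_coprime_iff_dvd.mp hcon
  have he0 : e ≠ 0 := ne_zero_of_dvd_ne_zero hn he
  apply h
  refine Finset.prod_eq_zero (Nat.mem_primeFactors.mpr ⟨hp, h1, he0⟩) ?_
  rw [z_eq_one n a d (Nat.mem_primeFactors.mpr ⟨hp, h1.trans he, hn⟩) hc _ _ h2, sub_self]

theorem V_eq (hn : n ≠ 0) {e : ℕ} (he : e ∣ n) (i : ℕ) :
    V n a d e i = ∏ p ∈ e.primeFactors, z n a d p (e.factorization p) i := by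
  unfold V
  symm
  apply Finset.prod_subset (Nat.primeFactors_mono he hn)
  intro p _ hp
  rw [← Nat.support_factorization, Finsupp.notMem_support_iff] at hp
  rw [hp, z_zero]

/-- the divisor of `e` supported on `S` -/
noncomputable def part (e : ℕ) (S : Finset ℕ) : ℕ := (e.factorization.filter (· ∈ S)).prod (· ^ ·)

theorem part_fact (e : ℕ) (S : Finset ℕ) :
    (part e S).factorization = e.factorization.filter (· ∈ S) := by
  unfold part
  apply Nat.prod_pow_factorization_eq_self
  intro p hp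
  rw [Finsupp.support_filter, Finset.mem_filter, Nat.support_factorization] at hp
  exact Nat.prime_of_mem_primeFactors hp.1

theorem part_ne_zero (e : ℕ) (S : Finset ℕ) : part e S ≠ 0 := by
  unfold part
  rw [Finsupp.prod, Finset.prod_ne_zero_iff]
  intro p hp
  rw [Finsupp.support_filter, Finset.mem_filter, Nat.support_factorization] at hp
  exact pow_ne_zero _ (Nat.prime_of_mem_primeFactors hp.1).ne_zero

theorem part_dvd {e : ℕ} (he : e ≠ 0) (S : Finset ℕ) : part e S ∣ e := by
  rw [← Nat.factorization_le_iff_dvd (part_ne_zero e S) he, part_fact]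
  intro p
  rw [Finsupp.filter_apply]
  split_ifs
  · exact le_rfl
  · exact Nat.zero_le _

theorem F_part {e : ℕ} {S : Finset ℕ} (hS : S ⊆ e.primeFactors) (i : ℕ) :
    F n a d (part e S) i = ∏ p ∈ S, (1 - z n a d p (e.factorization p) i) := by
  have h1 : (part e S).primeFactors = S := by
    rw [← Nat.support_factorization, part_fact, Finsupp.support_filter, Nat.support_factorization]
    ext p
    rw [Finset.mem_filter]
    exact ⟨fun h => h.2, fun h => ⟨hS h, h⟩⟩
  unfold F
  rw [h1, part_fact]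
  refine Finset.prod_congr rfl fun p hp => ?_
  rw [Finsupp.filter_apply_pos _ _ hp]

theorem V_expand (hn : n ≠ 0) {e : ℕ} (he : e ∣ n) (i : ℕ) :
    V n a d e i = ∑ S ∈ e.primeFactors.powerset, (-1) ^ S.card * F n a d (part e S) i := by
  rw [V_eq n a d hn he]
  have h1 : ∀ p ∈ e.primeFactors, z n a d p (e.factorization p) i =
      1 + -(1 - z n a d p (e.factorization p) i) := fun p _ => by ring
  rw [Finset.prod_congr rfl h1, Finset.prod_one_add]
  refine Finset.sum_congr rfl fun S hS => ?_
  rw [Finset.mem_powerset] at hS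
  rw [F_part n a d hS, Finset.prod_neg]

/-- exponent of the node -/
def K (e : ℕ) : ℕ := ∑ p ∈ n.primeFactors, R n / p * (e.factorization p * be d p)
def A (e : ℕ) : ℕ := ∑ p ∈ n.primeFactors, R n / p * (e.factorization p * al a d p)

theorem V_pow (e i : ℕ) : V n a d e i = ζ n ^ A n a d e * (ζ n ^ K n d e) ^ i := by
  unfold V z
  rw [Finset.prod_pow_eq_pow_sum, ← pow_mul, ← pow_add]
  congr 1
  rw [A, K, Finset.sum_mul, ← Finset.sum_add_distrib]
  exact Finset.sum_congr rfl fun p _ => by ring

theorem node_inj (hn : n ≠ 0) (hM : ∀ p : ℕ, p.Prime → ¬ p ^ p ∣ n) {e f : ℕ} (he : e ∣ n) (hf : f ∣ n)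
    (h : ζ n ^ K n d e = ζ n ^ K n d f) : e = f := by
  have he0 : e ≠ 0 := ne_zero_of_dvd_ne_zero hn he
  have hf0 : f ≠ 0 := ne_zero_of_dvd_ne_zero hn hf
  have h1 : K n d e ≡ K n d f [MOD R n] := by
    have := ((ζ_prim n).isOfFinOrder (R_pos n).ne').pow_inj_mod.mp h
    rw [← (ζ_prim n).eq_orderOf] at this
    exact this
  have hlt : ∀ g : ℕ, g ∣ n → ∀ p : ℕ, p.Prime → g.factorization p < p := by
    intro g hg p hp
    by_contra hcon
    push Not at hcon
    have hg0 : g ≠ 0 := ne_zero_of_dvd_ne_zero hn hg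
    exact hM p hp ((hp.pow_dvd_iff_le_factorization hg0).mpr hcon |>.trans hg)
  apply Nat.eq_of_factorization_eq he0 hf0
  intro p
  by_cases hp : p ∈ n.primeFactors
  · have hpp := Nat.prime_of_mem_primeFactors hp
    have h2 : K n d e ≡ K n d f [MOD p] := h1.of_dvd (dvd_R n hp)
    have h3 : ∀ g : ℕ, K n d g ≡ R n / p * be d p * g.factorization p [MOD p] := by
      intro g
      unfold K
      rw [← Finset.add_sum_erase _ _ hp]
      have : ∑ x ∈ n.primeFactors.erase p, R n / x * (g.factorization x * be d x) ≡ 0 [MOD p] := by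
        rw [Nat.modEq_zero_iff_dvd]
        refine Finset.dvd_sum fun q hq => ?_
        rw [Finset.mem_erase] at hq
        exact (dvd_R_div n hp hq.2 (Ne.symm hq.1)).mul_right _
      calc _ ≡ R n / p * (g.factorization p * be d p) + 0 [MOD p] := Nat.ModEq.add_left _ this
        _ = R n / p * be d p * g.factorization p := by ring
    have h4 : R n / p * be d p * e.factorization p ≡ R n / p * be d p * f.factorization p [MOD p] :=
      (h3 e).symm.trans (h2.trans (h3 f))
    have hcop : Nat.gcd p (R n / p * be d p) = 1 := by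
      rw [← Nat.coprime_iff_gcd_eq_one, Nat.coprime_mul_iff_right]
      exact ⟨(Nat.Prime.coprime_iff_not_dvd hpp).mpr (R_div_coprime n hp),
        (Nat.Prime.coprime_iff_not_dvd hpp).mpr (be_coprime d hpp)⟩
    have h5 := Nat.ModEq.cancel_left_of_coprime hcop h4
    exact Nat.ModEq.eq_of_lt_of_lt h5 (hlt e he p hpp) (hlt f hf p hpp)
  · have hz : ∀ g : ℕ, g ∣ n → g.factorization p = 0 := by
      intro g hg
      rw [← Finsupp.notMem_support_iff, Nat.support_factorization]
      exact fun h => hp (Nat.primeFactors_mono hg hn h)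
    rw [hz e he, hz f hf]

end

/-- Every M-number is strongly matchable: if `n ≥ 1` is not divisible by `p ^ p` for any prime `p`, then `n` is
strongly matchable. -/
theorem result (n : ℕ) (hn : 1 ≤ n) (hM : ∀ p : ℕ, p.Prime → ¬ p ^ p ∣ n) : StronglyMatchable n := by
  intro a d ha hd hc
  have hn0 : n ≠ 0 := by omega
  obtain ⟨t, ht⟩ : ∃ t, t = n.divisors.card := ⟨_, rfl⟩
  obtain ⟨σ⟩ : Nonempty (Fin t ≃ n.divisors) := by
    rw [ht]
    exact ⟨n.divisors.equivFin.symm⟩
  have hσ : ∀ j, (σ j : ℕ) ∣ n := fun j => Nat.dvd_of_mem_divisors (σ j).2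
  let M : Matrix (Fin t) (Fin t) ℂ := fun j i => F n a d (σ j) i
  have hdet : M.det ≠ 0 := by
    intro h0
    obtain ⟨w, hw0, hw⟩ := Matrix.exists_mulVec_eq_zero_iff.mpr h0
    apply hw0
    have hF : ∀ e, e ∣ n → ∑ i : Fin t, F n a d e i * w i = 0 := by
      intro e he
      have := congrFun hw (σ.symm ⟨e, Nat.mem_divisors.mpr ⟨he, hn0⟩⟩)
      simpa [Matrix.mulVec, dotProduct, M] using this
    have hV : ∀ e, e ∣ n → ∑ i : Fin t, V n a d e i * w i = 0 := by
      intro e he
      have he0 : e ≠ 0 := ne_zero_of_dvd_ne_zero hn0 he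
      calc ∑ i : Fin t, V n a d e i * w i
          = ∑ i : Fin t, ∑ S ∈ e.primeFactors.powerset, (-1) ^ S.card * (F n a d (part e S) i * w i) := by
            refine Finset.sum_congr rfl fun i _ => ?_
            rw [V_expand n a d hn0 he, Finset.sum_mul]
            exact Finset.sum_congr rfl fun S _ => by ring
        _ = ∑ S ∈ e.primeFactors.powerset, (-1) ^ S.card * ∑ i : Fin t, F n a d (part e S) i * w i := by
            rw [Finset.sum_comm]
            exact Finset.sum_congr rfl fun S _ => by rw [Finset.mul_sum]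
        _ = 0 := by
            refine Finset.sum_eq_zero fun S _ => ?_
            rw [hF _ ((part_dvd he0 S).trans he), mul_zero]
    -- the polynomial with coefficients `w` has too many roots
    have hvan : Matrix.mulVec (Matrix.vandermonde (fun j : Fin t => ζ n ^ K n d (σ j))) w = 0 := by
      funext j
      have h1 := hV (σ j) (hσ j)
      simp_rw [V_pow, mul_assoc] at h1
      rw [← Finset.mul_sum] at h1
      have h2 : ζ n ^ A n a d (σ j) ≠ 0 := pow_ne_zero _ ((ζ_prim n).ne_zero (R_pos n).ne')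
      have h3 := (mul_eq_zero.mp h1).resolve_left h2
      simpa [Matrix.mulVec, dotProduct, Matrix.vandermonde_apply] using h3
    have hvdet : (Matrix.vandermonde (fun j : Fin t => ζ n ^ K n d (σ j))).det ≠ 0 := by
      rw [Matrix.det_vandermonde_ne_zero_iff]
      intro j k hjk
      exact σ.injective (Subtype.ext (node_inj n d hn0 hM (hσ j) (hσ k) hjk))
    by_contra hne
    exact hvdet (Matrix.exists_mulVec_eq_zero_iff.mp ⟨w, hne, hvan⟩)
  -- a nonzero term of the determinant
  obtain ⟨π, hπ⟩ : ∃ π : Equiv.Perm (Fin t), ∀ i, M (π i) i ≠ 0 := by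
    by_contra hcon
    push Not at hcon
    apply hdet
    rw [Matrix.det_apply]
    refine Finset.sum_eq_zero fun π _ => ?_
    obtain ⟨i, hi⟩ := hcon π
    have h0 : ∏ i, M (π i) i = 0 := Finset.prod_eq_zero (Finset.mem_univ i) hi
    exact (congrArg (fun x => Equiv.Perm.sign π • x) h0).trans (smul_zero _)
  classical
  let idx : ℕ → ℕ := fun e => if h : e ∈ n.divisors then (π.symm (σ.symm ⟨e, h⟩) : ℕ) else 0
  refine ⟨fun e => a + idx e * d, ⟨?_, ?_, ?_⟩, ?_⟩
  · intro e he
    have h : e ∈ n.divisors := Nat.mem_divisors.mpr ⟨he, hn0⟩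
    refine ⟨idx e, ?_, rfl⟩
    simp only [idx, dif_pos h]
    rw [← ht]
    exact Fin.is_lt _
  · intro e he f hf hef
    have h : e ∈ n.divisors := Nat.mem_divisors.mpr ⟨he, hn0⟩
    have h' : f ∈ n.divisors := Nat.mem_divisors.mpr ⟨hf, hn0⟩
    have h1 : idx e = idx f := by
      have : idx e * d = idx f * d := Nat.add_left_cancel hef
      exact Nat.eq_of_mul_eq_mul_right (by omega) this
    simp only [idx, dif_pos h, dif_pos h'] at h1
    have h2 := σ.symm.injective (π.symm.injective (Fin.ext h1))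
    exact congrArg Subtype.val h2
  · rintro _ ⟨i, hi, rfl⟩
    rw [← ht] at hi
    refine ⟨σ (π ⟨i, hi⟩), hσ _, ?_⟩
    have h : ((σ (π ⟨i, hi⟩) : n.divisors) : ℕ) ∈ n.divisors := (σ (π ⟨i, hi⟩)).2
    simp only [idx, dif_pos h]
    simp
  · intro e he
    have h : e ∈ n.divisors := Nat.mem_divisors.mpr ⟨he, hn0⟩
    have h1 := hπ (π.symm (σ.symm ⟨e, h⟩))
    simp only [M, Equiv.apply_symm_apply] at h1
    have h2 := F_ne_zero n a d hc hn0 he h1
    simpa only [idx, dif_pos h] using h2

end Pool.Agent.Results.MP_0a29ca_nt.EveryMNumber
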